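import Pool.Agent.UMG.Kit12
import Pool.Agent.Helper21_UMG.UES
import Pool.Agent.Helper64_UMG.UEB
import Pool.Agent.Helper77_UMG.UAS
import Pool.Agent.Helper66_UMG.UAC
import Pool.Agent.Helper97_UMG.UAB
import Pool.Agent.Helper10_UMG.MTL
import Pool.Agent.Helper45_UMG.MTK
import Pool.Agent.Helper92_UMG.OUC

/-!
# Squad UMG, block C: the final statement, without hypotheses
-/

set_option autoImplicit false

namespace Pool.Agent.UMG.H14

open Pool.Agent.UMG

theorem pgm : PgmStmt :=
  UMG.pgm C.H21.ues C.H64.ueb C.H77.uas C.H66.uac (C.H97.uab C.H21.ues C.H64.ueb C.H66.uac)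
    C.H10.mtl C.H45.mtk C.H92.ouc

theorem stt : SttStmt := UMG.stt

end Pool.Agent.UMG.H14
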